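import Pool.Agent.Z15.H.Stm2

/-!
Auxiliary facts on lines and homogeneous forms.
-/

set_option autoImplicit false

open FF MvPolynomial

namespace Pool.Agent.T2h38.H15

open Pool.Agent.Z15.H Pool.Agent.Z15.H.Stm

variable {k : Type} [Field k] {ι κ μ : Type}

/-! ### lines -/

theorem line_congr {a b a' b' : ι → k}
    (h1 : ∀ α β : k, ∃ α' β' : k, ∀ i, α * a i + β * b i = α' * a' i + β' * b' i)
    (h2 : ∀ α β : k, ∃ α' β' : k, ∀ i, α * a' i + β * b' i = α' * a i + β' * b i) :
    line a b = line a' b' := by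
  unfold line
  congr 1
  ext G
  simp only [Set.mem_ofPred_eq]
  constructor
  · intro h n α β
    obtain ⟨α', β', h3⟩ := h2 α β
    rw [funext h3]
    exact h n α' β'
  · intro h n α β
    obtain ⟨α', β', h3⟩ := h1 α β
    rw [funext h3]
    exact h n α' β'

theorem line_comm (a b : ι → k) : line a b = line b a :=
  line_congr (fun α β => ⟨β, α, fun _ => add_comm _ _⟩) (fun α β => ⟨β, α, fun _ => add_comm _ _⟩)

theorem line_smul {a a' b : ι → k} {c : k} (hc : c ≠ 0) (h : ∀ i, a' i = c * a i) :
    line a' b = line a b := by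
  refine line_congr (fun α β => ⟨α * c, β, fun i => ?_⟩) (fun α β => ⟨α * c⁻¹, β, fun i => ?_⟩)
  · rw [h]; ring
  · rw [h]
    field_simp

theorem line_add {a b b' : ι → k} (c : k) (h : ∀ i, b' i = b i + c * a i) :
    line a b' = line a b := by
  refine line_congr (fun α β => ⟨α + β * c, β, fun i => ?_⟩)
    (fun α β => ⟨α - β * c, β, fun i => ?_⟩)
  · rw [h]; ring
  · rw [h]; ring

/-! ### forms -/

theorem hom_smul [Fintype κ] {f : MvPolynomial κ k} {d : ℕ} (hf : f.IsHomogeneous d) {A : Type}
    [CommRing A] [Algebra k A] (c : A) (v : κ → A) :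
    aeval (fun i => c * v i) f = c ^ d * aeval v f := by
  rw [aeval_def, aeval_def, eval₂_eq', eval₂_eq', Finset.mul_sum]
  refine Finset.sum_congr rfl fun m hm => ?_
  have h1 : ∑ i, m i = d := by
    have h2 := hf (mem_support_iff.mp hm)
    rw [← h2, Finsupp.weight_apply, Finsupp.sum_fintype _ _ (by simp)]
    simp
  simp_rw [mul_pow, Finset.prod_mul_distrib, Finset.prod_pow_eq_pow_sum, h1]
  ring

theorem hom_zero [Fintype κ] {f : MvPolynomial κ k} {d : ℕ} (hf : f.IsHomogeneous d) (hd : d ≠ 0)
    {A : Type} [CommRing A] [Algebra k A] : aeval (fun _ => (0 : A)) f = 0 := by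
  have := hom_smul hf (0 : A) (fun _ => 0)
  simpa [zero_pow hd] using this

theorem aeval_jn (f : MvPolynomial κ k) (g : MvPolynomial μ k) {A : Type} [CommRing A]
    [Algebra k A] (v : κ ⊕ μ → A) :
    aeval v (jn f g) = aeval (fun i => v (Sum.inl i)) f + aeval (fun i => v (Sum.inr i)) g := by
  unfold jn
  rw [map_add, aeval_rename, aeval_rename]
  rfl

theorem eval_eq_aeval (f : MvPolynomial κ k) (v : κ → k) : eval v f = aeval v f := by
  rw [aeval_def, Algebra.algebraMap_self]
  rfl

/-- polynomial identities in two parameters -/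
theorem ident2 [Infinite k] (f : MvPolynomial κ k) (a b : κ → k) (γ : k) (d : ℕ)
    (h : ∀ α β : k, eval (fun i => α * a i + β * b i) f + β ^ d * γ = 0) {A : Type} [CommRing A]
    [Algebra k A] (α β : A) :
    aeval (fun i => α * algebraMap k A (a i) + β * algebraMap k A (b i)) f +
      β ^ d * algebraMap k A γ = 0 := by
  set Φ : MvPolynomial (Fin 2) k := aeval (fun i => X 0 * C (a i) + X 1 * C (b i)) f +
    X 1 ^ d * C γ with hΦ
  have hΦ0 : Φ = 0 := by
    refine MvPolynomial.funext fun v => ?_
    rw [map_zero, ← h (v 0) (v 1), hΦ, map_add, map_mul, map_pow, eval_X, eval_C]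
    congr 1
    rw [eval_eq_aeval, eval_eq_aeval, ← AlgHom.comp_apply]
    congr 1
    ext i
    simp
  have h2 : aeval ![α, β] Φ = 0 := by rw [hΦ0, map_zero]
  rw [hΦ, map_add, map_mul, map_pow, aeval_X, aeval_C, ← AlgHom.comp_apply] at h2
  have e : (aeval ![α, β]).comp (aeval fun i => X 0 * C (a i) + X 1 * C (b i)) =
      (aeval (fun i => α * algebraMap k A (a i) + β * algebraMap k A (b i)) :
        MvPolynomial κ k →ₐ[k] A) := by
    ext i
    simp
  rw [e] at h2
  simpa using h2

/-! ### linear independence -/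

theorem li2 {K : Type} [Field K] {a b : ι → K}
    (h : ∀ α β : K, (∀ i, α * a i + β * b i = 0) → α = 0 ∧ β = 0) :
    LinearIndependent K ![a, b] := by
  rw [LinearIndependent.pair_iff]
  intro α β h1
  exact h α β fun i => by simpa using congrFun h1 i

theorem li2' {K : Type} [Field K] {a b : ι → K} (h : LinearIndependent K ![a, b]) :
    ∀ α β : K, (∀ i, α * a i + β * b i = 0) → α = 0 ∧ β = 0 := by
  rw [LinearIndependent.pair_iff] at h
  intro α β h1
  exact h α β (funext fun i => by simpa using h1 i)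

theorem li3 {K : Type} [Field K] {a b c : ι → K}
    (h : ∀ α β γ : K, (∀ i, α * a i + β * b i + γ * c i = 0) → α = 0 ∧ β = 0 ∧ γ = 0) :
    LinearIndependent K ![a, b, c] := by
  rw [Fintype.linearIndependent_iff]
  intro g h1
  have h2 := h (g 0) (g 1) (g 2) fun i => by
    have := congrFun h1 i
    simpa [Fin.sum_univ_three] using this
  intro i
  fin_cases i
  · exact h2.1
  · exact h2.2.1
  · exact h2.2.2

end Pool.Agent.T2h38.H15
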