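import Pool.Agent.T2h38.H15.Ax

/-!
The pencil trick for families of lines through a point `(z, 0)`.
-/

set_option autoImplicit false

open FF MvPolynomial

namespace Pool.Agent.T2h38.H15

open Pool.Agent.Z15.H Pool.Agent.Z15.H.Stm

theorem pt_use (hPT : T_PT) {k : Type} [Field k] [IsAlgClosed k] [CharZero k] {κ μ : Type}
    [Fintype κ] [Fintype μ] {d : ℕ} (hd : 0 < d) {f : MvPolynomial κ k} {g : MvPolynomial μ k}
    (hg : g.IsHomogeneous d) {z x : κ → k} {γ : k} (hz : z ≠ 0)
    (hγ : γ ≠ 0) (hid : ∀ α β : k, eval (fun i => α * z i + β * x i) f + β ^ d * γ = 0)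
    {p0 q0 p1 q1 : μ ⊕ Unit → k} (h0 : LinearIndependent k ![p0, q0])
    (h1 : LinearIndependent k ![p1, q1]) {c0 c1 : Set (MvPolynomial (κ ⊕ μ) k) →₀ ℤ}
    (H0 : ∀ a b : k, (∃ j, a * p0 j + b * q0 j ≠ 0) →
      eval (fun j => a * p0 (Sum.inl j) + b * q0 (Sum.inl j)) g =
        γ * (a * p0 (Sum.inr ()) + b * q0 (Sum.inr ())) ^ d →
      line (Sum.elim (fun j => (a * p0 (Sum.inr ()) + b * q0 (Sum.inr ())) * x j)
        (fun j => a * p0 (Sum.inl j) + b * q0 (Sum.inl j))) (Sum.elim z 0) - c0 ∈ Tor (jn f g))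
    (H1 : ∀ a b : k, (∃ j, a * p1 j + b * q1 j ≠ 0) →
      eval (fun j => a * p1 (Sum.inl j) + b * q1 (Sum.inl j)) g =
        γ * (a * p1 (Sum.inr ()) + b * q1 (Sum.inr ())) ^ d →
      line (Sum.elim (fun j => (a * p1 (Sum.inr ()) + b * q1 (Sum.inr ())) * x j)
        (fun j => a * p1 (Sum.inl j) + b * q1 (Sum.inl j))) (Sum.elim z 0) - c1 ∈ Tor (jn f g)) :
    c0 - c1 ∈ Tor (jn f g) := by
  classical
  set φ : μ ⊕ Unit → κ ⊕ μ → k :=
    Sum.elim (fun j => Sum.elim 0 (Pi.single j 1)) (fun _ => Sum.elim x 0) with hφ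
  set G : MvPolynomial (μ ⊕ Unit) k := rename Sum.inl g - C γ * X (Sum.inr ()) ^ d with hG
  have hlin : ∀ (K : Type) [Field K] [Algebra k K] (e : μ ⊕ Unit → K), lin φ e =
      Sum.elim (fun i => e (Sum.inr ()) * algebraMap k K (x i)) (fun m => e (Sum.inl m)) := by
    intro K _ _ e
    funext i
    unfold lin
    rw [Fintype.sum_sum_type]
    cases i with
    | inl i => simp [hφ]
    | inr i =>
      simp only [hφ, Sum.elim_inl, Sum.elim_inr, Fintype.sum_unique]
      rw [Finset.sum_eq_single i]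
      · simp
      · intro j _ hj
        rw [Pi.single_eq_of_ne hj.symm]
        simp
      · simp
  have haG : ∀ (K : Type) [Field K] [Algebra k K] (e : μ ⊕ Unit → K), aeval e G =
      aeval (fun m => e (Sum.inl m)) g - algebraMap k K γ * e (Sum.inr ()) ^ d := by
    intro K _ _ e
    rw [hG, map_sub, aeval_rename, map_mul, map_pow, aeval_X, aeval_C]
    rfl
  have hzi : ∃ i, z i ≠ 0 := by
    by_contra h
    push Not at h
    exact hz (funext h)
  have hmem : ∀ (p q : μ ⊕ Unit → k) (c : Set (MvPolynomial (κ ⊕ μ) k) →₀ ℤ),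
      (∀ a b : k, (∃ j, a * p j + b * q j ≠ 0) →
        eval (fun j => a * p (Sum.inl j) + b * q (Sum.inl j)) g =
          γ * (a * p (Sum.inr ()) + b * q (Sum.inr ())) ^ d →
        line (Sum.elim (fun j => (a * p (Sum.inr ()) + b * q (Sum.inr ())) * x j)
          (fun j => a * p (Sum.inl j) + b * q (Sum.inl j))) (Sum.elim z 0) - c ∈ Tor (jn f g)) →
      ∀ e : μ ⊕ Unit → k, e ≠ 0 → e ∈ Submodule.span k {p, q} → eval e G = 0 →
        line (lin φ e) (Sum.elim z 0) - c ∈ Tor (jn f g) := by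
    intro p q c H e he hm hG0
    obtain ⟨a, b, rfl⟩ := Submodule.mem_span_pair.mp hm
    have h2 := H a b (by
      by_contra hc
      push Not at hc
      exact he (funext fun j => by simpa using hc j)) (by
        rw [eval_eq_aeval, haG] at hG0
        simp only [Pi.add_apply, Pi.smul_apply, smul_eq_mul, Algebra.algebraMap_self,
          RingHom.id_apply] at hG0
        rw [eval_eq_aeval]
        exact sub_eq_zero.mp hG0)
    rw [hlin]
    simpa using h2
  refine hPT k (κ ⊕ μ) (μ ⊕ Unit) (jn f g) G d hd ?_ φ (Sum.elim z 0) ?_ ?_ p0 q0 p1 q1 h0 h1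
    c0 c1 (hmem p0 q0 c0 H0) (hmem p1 q1 c1 H1)
  · rw [hG]
    refine (hg.rename_isHomogeneous).sub ?_
    exact isHomogeneous_C_mul_X_pow γ _ d
  · intro K _ _ e s he
    rw [haG, sub_eq_zero] at he
    rw [hlin, aeval_jn]
    have h2 := ident2 f z x γ d hid s (e (Sum.inr ()))
    simp only [Sum.elim_inl, Sum.elim_inr, Pi.zero_apply, map_zero, mul_zero, add_zero]
    rw [he]
    have e1 : (fun i => e (Sum.inr ()) * algebraMap k K (x i) + s * algebraMap k K (z i)) =
        fun i => s * algebraMap k K (z i) + e (Sum.inr ()) * algebraMap k K (x i) :=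
      funext fun i => add_comm _ _
    rw [e1]
    linear_combination h2
  · intro K _ _ e he0 he
    rw [haG, sub_eq_zero] at he
    rw [hlin]
    refine li2 fun α β h => ?_
    have ha : α = 0 := by
      by_contra hα
      have h3 : ∀ m, e (Sum.inl m) = 0 := by
        intro m
        have := h (Sum.inr m)
        simp only [Sum.elim_inr, Pi.zero_apply, map_zero, mul_zero, add_zero] at this
        exact (mul_eq_zero.mp this).resolve_left hα
      have h4 : (fun m => e (Sum.inl m)) = fun _ => (0 : K) := funext h3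
      rw [h4, hom_zero hg hd.ne', eq_comm, mul_eq_zero] at he
      have hγ' : algebraMap k K γ ≠ 0 := by
        rw [Ne, FaithfulSMul.algebraMap_eq_zero_iff]
        exact hγ
      have h5 : e (Sum.inr ()) = 0 := pow_eq_zero_iff hd.ne' |>.mp (he.resolve_left hγ')
      exact he0 (funext fun j => by
        cases j with
        | inl m => exact h3 m
        | inr u => exact h5)
    refine ⟨ha, ?_⟩
    obtain ⟨i, hi⟩ := hzi
    have h6 := h (Sum.inl i)
    rw [ha, zero_mul, zero_add] at h6
    refine (mul_eq_zero.mp h6).resolve_right ?_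
    rw [Sum.elim_inl, FaithfulSMul.algebraMap_eq_zero_iff]
    exact hi

end Pool.Agent.T2h38.H15
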