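import Pool.Agent.T2h38.H15.PTU

/-!
TAi: lines through a point `(z, 0)`.
-/

set_option autoImplicit false

open FF MvPolynomial

namespace Pool.Agent.T2h38.H15

open Pool.Agent.Z15.H Pool.Agent.Z15.H.Stm

theorem exp_one (hE : T_EXP) {k : Type} [Field k] [IsAlgClosed k] {μ : Type} [Fintype μ] {d : ℕ}
    (hd : 0 < d) (hc : 1 < Fintype.card μ) {g : MvPolynomial μ k} (hg : g.IsHomogeneous d) :
    ∃ y : μ → k, y ≠ 0 ∧ eval y g = 0 := by
  obtain ⟨y, c, hy, -, h1, h2⟩ := hE k k μ d g hg (fun _ => 0) Finset.univ {d}
    (by simp [hd.ne]) (by simpa using hc)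
  refine ⟨y, hy, ?_⟩
  have h3 := h1 k 0 1
  simp only [Algebra.algebraMap_self, RingHom.id_apply, mul_zero, zero_add, one_mul, one_pow,
    mul_one] at h3
  rw [eval_eq_aeval, h3]
  refine Finset.sum_eq_zero fun j hj => ?_
  rw [Finset.mem_range] at hj
  by_cases hjd : j = d
  · rw [hjd, h2 d (by simp), zero_mul]
  · rw [zero_pow (by omega), mul_zero]

theorem exp_high (hE : T_EXP) {k : Type} [Field k] [IsAlgClosed k] {μ : Type} [Fintype μ] {d : ℕ}
    (hd : 0 < d) (S : Finset μ) (hc : d - 1 < S.card) {g : MvPolynomial μ k}
    (hg : g.IsHomogeneous d) (x : μ → k) :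
    ∃ w : μ → k, w ≠ 0 ∧ (∀ i ∉ S, w i = 0) ∧ ∀ α β : k,
      eval (fun i => α * x i + β * w i) g = α ^ d * eval x g + β ^ d * eval w g := by
  obtain ⟨w, c, hw, hS, h1, h2⟩ := hE k k μ d g hg x S (Finset.Ico 1 d)
    (by simp) (by simpa using hc)
  have h3 : ∀ α β : k, eval (fun i => α * x i + β * w i) g = α ^ d * c 0 + β ^ d * c d := by
    intro α β
    have h4 := h1 k α β
    simp only [Algebra.algebraMap_self, RingHom.id_apply] at h4
    rw [eval_eq_aeval, h4]
    obtain ⟨n, rfl⟩ := Nat.exists_eq_succ_of_ne_zero hd.ne'
    rw [Finset.sum_range_succ, Finset.sum_range_succ']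
    have h5 : ∑ j ∈ Finset.range n, c (j + 1) * α ^ (n.succ - (j + 1)) * β ^ (j + 1) = 0 := by
      refine Finset.sum_eq_zero fun j hj => ?_
      rw [h2 (j + 1) (by
        have := Finset.mem_range.mp hj
        rw [Finset.mem_Ico]
        omega)]
      ring
    rw [h5, Nat.succ_eq_add_one]
    simp only [zero_add, Nat.sub_zero, pow_zero, mul_one, Nat.sub_self]
    ring
  refine ⟨w, hw, hS, fun α β => ?_⟩
  have e0 : eval x g = c 0 := by
    have := h3 1 0
    simpa [zero_pow hd.ne'] using this
  have e1 : eval w g = c d := by
    have := h3 0 1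
    simpa [zero_pow hd.ne'] using this
  rw [h3, e0, e1]

theorem eval_smul_hom {k : Type} [Field k] {μ : Type} [Fintype μ] {d : ℕ} {g : MvPolynomial μ k}
    (hg : g.IsHomogeneous d) (a : k) (y : μ → k) :
    eval (fun i => a * y i) g = a ^ d * eval y g := by
  rw [eval_eq_aeval, eval_eq_aeval]
  exact hom_smul hg a y

theorem eval_jn {k : Type} [Field k] {κ μ : Type} (f : MvPolynomial κ k) (g : MvPolynomial μ k)
    (v : κ ⊕ μ → k) :
    eval v (jn f g) = eval (fun i => v (Sum.inl i)) f + eval (fun i => v (Sum.inr i)) g := by
  rw [eval_eq_aeval, eval_eq_aeval, eval_eq_aeval]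
  exact aeval_jn f g v

theorem eval_zero_hom {k : Type} [Field k] {μ : Type} [Fintype μ] {d : ℕ} {g : MvPolynomial μ k}
    (hg : g.IsHomogeneous d) (hd : d ≠ 0) : eval (fun _ => (0 : k)) g = 0 := by
  rw [eval_eq_aeval]
  exact hom_zero hg hd

/-- the plane spanned by `(z, 0)`, `(x, y)`, `(0, w)` when `f(α z + β x) + g(β y + γ w) = 0` -/
theorem pl_use (hPL : T_PL) {k : Type} [Field k] [IsAlgClosed k] [CharZero k] {ι : Type}
    [Fintype ι] {F : MvPolynomial ι k} {p q r : ι → k} (h : LinearIndependent k ![p, q, r])
    (hF : ∀ α β γ : k, eval (fun i => α * p i + β * q i + γ * r i) F = 0) :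
    line p q - line p r ∈ Tor F := by
  refine hPL k ι F p q r h fun K _ _ α β γ => ?_
  set Φ : MvPolynomial (Fin 3) k := aeval (fun i => X 0 * C (p i) + X 1 * C (q i) +
    X 2 * C (r i)) F with hΦ
  have hΦ0 : Φ = 0 := by
    refine MvPolynomial.funext fun v => ?_
    rw [map_zero, ← hF (v 0) (v 1) (v 2), hΦ, eval_eq_aeval, eval_eq_aeval, ← AlgHom.comp_apply]
    congr 1
    ext i
    simp
  have h2 : aeval ![α, β, γ] Φ = 0 := by rw [hΦ0, map_zero]
  rw [hΦ, ← AlgHom.comp_apply] at h2
  have e : (aeval ![α, β, γ]).comp (aeval fun i => X 0 * C (p i) + X 1 * C (q i) + X 2 * C (r i)) =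
      (aeval (fun i => α * algebraMap k K (p i) + β * algebraMap k K (q i) +
        γ * algebraMap k K (r i)) : MvPolynomial ι k →ₐ[k] K) := by
    ext i
    simp
  rw [e] at h2
  exact h2

theorem t_TAi : T_TAi := by
  intro hPT hPL hE k _ _ _ κ μ _ _ d hd2 hκ hμ f g hf hg z x y hli hF
  have hd : 0 < d := by omega
  have hd0 : d ≠ 0 := hd.ne'
  have hli' := li2' hli
  have hz : z ≠ 0 := by
    intro h
    have := hli' 1 0 (fun i => by cases i <;> simp [h])
    exact one_ne_zero this.1
  have hzi : ∃ i, z i ≠ 0 := by
    by_contra h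
    push Not at h
    exact hz (funext h)
  have hid : ∀ α β : k, eval (fun i => α * z i + β * x i) f + β ^ d * eval y g = 0 := by
    intro α β
    have h1 := hF α β
    rw [eval_jn] at h1
    simp only [Sum.elim_inl, Sum.elim_inr, Pi.zero_apply, mul_zero, zero_add] at h1
    rw [eval_smul_hom hg] at h1
    exact h1
  have hfz : eval z f = 0 := by
    have h1 := hid 1 0
    simpa [zero_pow hd0] using h1
  obtain ⟨y1, hy1, hgy1⟩ := exp_one hE hd (by omega) hg
  have hy1i : ∃ i, y1 i ≠ 0 := by
    by_contra h
    push Not at h
    exact hy1 (funext h)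
  by_cases hy : y = 0
  · -- `y = 0`
    refine ⟨z, y1, hz, hy1, hfz, hgy1, ?_⟩
    have hgy : eval y g = 0 := by
      have := eval_zero_hom hg hd0
      rw [hy]
      exact this
    refine pl_use hPL (li3 fun α β γ h => ?_) fun α β γ => ?_
    · obtain ⟨i, hi⟩ := hy1i
      have h1 := h (Sum.inr i)
      simp only [Sum.elim_inr, Pi.zero_apply, mul_zero, hy, zero_add] at h1
      have hγ := (mul_eq_zero.mp h1).resolve_right hi
      have h2 := hli' α β (fun j => by
        have := h j
        rw [hγ, zero_mul, add_zero] at this
        exact this)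
      exact ⟨h2.1, h2.2, hγ⟩
    · rw [eval_jn]
      simp only [Sum.elim_inl, Sum.elim_inr, Pi.zero_apply, mul_zero, add_zero, zero_add, hy]
      rw [eval_smul_hom hg, hgy1, mul_zero, add_zero]
      have := hid α β
      rw [hgy, mul_zero, add_zero] at this
      exact this
  · have hyi : ∃ i, y i ≠ 0 := by
      by_contra h
      push Not at h
      exact hy (funext h)
    by_cases hgy : eval y g = 0
    · refine ⟨z, y, hz, hy, hfz, hgy, ?_⟩
      by_cases hxz : ∃ c : k, ∀ i, x i = c * z i
      · obtain ⟨c, hc⟩ := hxz
        have h1 : line (Sum.elim z (0 : μ → k)) (Sum.elim x y) =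
            line (Sum.elim z (0 : μ → k)) (Sum.elim (0 : κ → k) y) := by
          refine line_add c fun i => ?_
          cases i with
          | inl i => simp [hc]
          | inr i => simp
        rw [h1, sub_self]
        exact zero_mem _
      · refine pl_use hPL (li3 fun α β γ h => ?_) fun α β γ => ?_
        · have hβ : β = 0 := by
            by_contra hβ
            refine hxz ⟨-α / β, fun i => ?_⟩
            have h1 := h (Sum.inl i)
            simp only [Sum.elim_inl, Pi.zero_apply, mul_zero, add_zero] at h1
            field_simp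
            linear_combination h1
          obtain ⟨i, hi⟩ := hyi
          have h1 := h (Sum.inr i)
          simp only [Sum.elim_inr, Pi.zero_apply, mul_zero, hβ, zero_mul, zero_add] at h1
          obtain ⟨j, hj⟩ := hzi
          have h2 := h (Sum.inl j)
          simp only [Sum.elim_inl, Pi.zero_apply, mul_zero, hβ, zero_mul, add_zero] at h2
          exact ⟨(mul_eq_zero.mp h2).resolve_right hj, hβ, (mul_eq_zero.mp h1).resolve_right hi⟩
        · rw [eval_jn]
          simp only [Sum.elim_inl, Sum.elim_inr, Pi.zero_apply, mul_zero, add_zero, zero_add]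
          have e : (fun i => β * y i + γ * y i) = fun i => (β + γ) * y i := by
            funext i; ring
          rw [e, eval_smul_hom hg, hgy, mul_zero, add_zero]
          have := hid α β
          rw [hgy, mul_zero, add_zero] at this
          exact this
    · -- `g(y) ≠ 0`
      refine ⟨z, y1, hz, hy1, hfz, hgy1, ?_⟩
      obtain ⟨w, hw, -, hgw⟩ := exp_high hE hd Finset.univ
        (by rw [Finset.card_univ]; omega) hg y
      have hwi : ∃ i, w i ≠ 0 := by
        by_contra h
        push Not at h
        exact hw (funext h)
      refine pt_use hPT hd hg (z := z) (x := x) (γ := eval y g) hz hgy hid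
        (p0 := Sum.elim y 1) (q0 := Sum.elim w 0) (p1 := Sum.elim y1 0) (q1 := Sum.elim 0 1)
        (li2 fun α β h => ?_) (li2 fun α β h => ?_) (fun a b hne he => ?_) (fun a b hne he => ?_)
      · have h1 := h (Sum.inr ())
        simp only [Sum.elim_inr, Pi.one_apply, Pi.zero_apply, mul_one, mul_zero, add_zero] at h1
        obtain ⟨i, hi⟩ := hwi
        have h2 := h (Sum.inl i)
        simp only [Sum.elim_inl, h1, zero_mul, zero_add] at h2
        exact ⟨h1, (mul_eq_zero.mp h2).resolve_right hi⟩
      · have h1 := h (Sum.inr ())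
        simp only [Sum.elim_inr, Pi.one_apply, Pi.zero_apply, mul_one, mul_zero, zero_add] at h1
        obtain ⟨i, hi⟩ := hy1i
        have h2 := h (Sum.inl i)
        simp only [Sum.elim_inl, h1, zero_mul, add_zero] at h2
        exact ⟨(mul_eq_zero.mp h2).resolve_right hi, h1⟩
      · simp only [Sum.elim_inl, Sum.elim_inr, Pi.one_apply, Pi.zero_apply, mul_one, mul_zero,
          add_zero] at he ⊢
        rw [hgw] at he
        have he' : b ^ d * eval w g = 0 := by linear_combination he
        by_cases hb : b = 0
        · -- a scaling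
          have ha : a ≠ 0 := by
            intro ha
            obtain ⟨j, hj⟩ := hne
            rw [ha, hb] at hj
            simp at hj
          have h1 : line (Sum.elim (fun j => a * x j) (fun j => a * y j + b * w j))
              (Sum.elim z (0 : μ → k)) = line (Sum.elim z (0 : μ → k)) (Sum.elim x y) := by
            rw [line_comm (Sum.elim z (0 : μ → k))]
            refine line_smul ha fun i => ?_
            cases i <;> simp [hb]
          rw [h1, sub_self]
          exact zero_mem _
        · have hw0 : eval w g = 0 :=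
            (mul_eq_zero.mp he').resolve_left (pow_ne_zero _ hb)
          have hyw : ∀ α β : k, (∀ i, α * y i + β * w i = 0) → α = 0 ∧ β = 0 := by
            intro α β h
            have h1 := hgw α β
            rw [hw0, mul_zero, add_zero] at h1
            have h2 : (fun i => α * y i + β * w i) = fun _ => (0 : k) := funext h
            rw [h2, eval_zero_hom hg hd0, eq_comm, mul_eq_zero] at h1
            have hα : α = 0 := pow_eq_zero_iff hd0 |>.mp (h1.resolve_right hgy)
            obtain ⟨i, hi⟩ := hwi
            have h3 := h i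
            rw [hα, zero_mul, zero_add] at h3
            exact ⟨hα, (mul_eq_zero.mp h3).resolve_right hi⟩
          rw [line_comm]
          refine pl_use hPL (li3 fun α β γ h => ?_) fun α β γ => ?_
          · have h1 := hyw (β * a + γ) (β * b) (fun i => by
              have := h (Sum.inr i)
              simp only [Sum.elim_inr, Pi.zero_apply, mul_zero, zero_add] at this
              linear_combination this)
            have hβ : β = 0 := (mul_eq_zero.mp h1.2).resolve_right hb
            have hγ : γ = 0 := by
              have := h1.1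
              rw [hβ, zero_mul, zero_add] at this
              exact this
            obtain ⟨j, hj⟩ := hzi
            have h2 := h (Sum.inl j)
            simp only [Sum.elim_inl, hβ, hγ, zero_mul, add_zero] at h2
            exact ⟨(mul_eq_zero.mp h2).resolve_right hj, hβ, hγ⟩
          · rw [eval_jn]
            simp only [Sum.elim_inl, Sum.elim_inr, Pi.zero_apply, mul_zero, zero_add]
            have e1 : (fun i => α * z i + β * (a * x i) + γ * x i) =
                fun i => α * z i + (β * a + γ) * x i := by funext i; ring
            have e2 : (fun i => β * (a * y i + b * w i) + γ * y i) =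
                fun i => (β * a + γ) * y i + (β * b) * w i := by funext i; ring
            rw [e1, e2, hgw, hw0, mul_zero, add_zero]
            exact hid α (β * a + γ)
      · simp only [Sum.elim_inl, Sum.elim_inr, Pi.one_apply, Pi.zero_apply, mul_one, mul_zero,
          add_zero, zero_add] at he ⊢
        rw [eval_smul_hom hg, hgy1, mul_zero, eq_comm, mul_eq_zero] at he
        have hb : b = 0 := pow_eq_zero_iff hd0 |>.mp (he.resolve_left hgy)
        have ha : a ≠ 0 := by
          intro ha
          obtain ⟨j, hj⟩ := hne
          rw [ha, hb] at hj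
          simp at hj
        have h1 : line (Sum.elim (fun j => b * x j) (fun j => a * y1 j))
            (Sum.elim z (0 : μ → k)) =
            line (Sum.elim z (0 : μ → k)) (Sum.elim (0 : κ → k) y1) := by
          rw [line_comm (Sum.elim z (0 : μ → k))]
          refine line_smul ha fun i => ?_
          cases i <;> simp [hb]
        rw [h1, sub_self]
        exact zero_mem _

end Pool.Agent.T2h38.H15
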