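import Pool.Agent.T2h38.H15.TAi

/-!
TIi: the lines `⟨(z, 0), (0, y)⟩`.
-/

set_option autoImplicit false

open FF MvPolynomial

namespace Pool.Agent.T2h38.H15

open Pool.Agent.Z15.H Pool.Agent.Z15.H.Stm

theorem ne_zero_ex {k : Type} [Field k] {κ : Type} {z : κ → k} (hz : z ≠ 0) : ∃ i, z i ≠ 0 := by
  by_contra h
  push Not at h
  exact hz (funext h)

/-- the vector of high contact -/
theorem high (hE : T_EXP) {k : Type} [Field k] [IsAlgClosed k] {κ : Type} [Fintype κ] {d : ℕ}
    (hd : 0 < d) (hκ : d + 1 ≤ Fintype.card κ) {f : MvPolynomial κ k} (hf : f.IsHomogeneous d)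
    {z : κ → k} (hz : z ≠ 0) (hfz : eval z f = 0) :
    ∃ w : κ → k, w ≠ 0 ∧ (∀ α β : k, (∀ i, α * z i + β * w i = 0) → α = 0 ∧ β = 0) ∧
      ∀ α β : k, eval (fun i => α * z i + β * w i) f = β ^ d * eval w f := by
  classical
  obtain ⟨j0, hj0⟩ := ne_zero_ex hz
  obtain ⟨w, hw, hS, h1⟩ := exp_high hE hd (Finset.univ.erase j0)
    (by rw [Finset.card_erase_of_mem (Finset.mem_univ _), Finset.card_univ]; omega) hf z
  refine ⟨w, hw, fun α β h => ?_, fun α β => ?_⟩
  · have h2 := h j0
    rw [hS j0 (Finset.notMem_erase _ _), mul_zero, add_zero] at h2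
    have hα : α = 0 := (mul_eq_zero.mp h2).resolve_right hj0
    obtain ⟨i, hi⟩ := ne_zero_ex hw
    have h3 := h i
    rw [hα, zero_mul, zero_add] at h3
    exact ⟨hα, (mul_eq_zero.mp h3).resolve_right hi⟩
  · rw [h1, hfz, mul_zero, zero_add]

theorem step1 (hPT : T_PT) (hPL : T_PL) (hE : T_EXP) {k : Type} [Field k] [IsAlgClosed k]
    [CharZero k] {κ μ : Type} [Fintype κ] [Fintype μ] {d : ℕ} (hd : 0 < d)
    (hκ : d + 1 ≤ Fintype.card κ) {f : MvPolynomial κ k} {g : MvPolynomial μ k}
    (hf : f.IsHomogeneous d) (hg : g.IsHomogeneous d) {z : κ → k} {y y' : μ → k} (hz : z ≠ 0)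
    (hy : y ≠ 0) (hy' : y' ≠ 0) (hfz : eval z f = 0) (hgy : eval y g = 0)
    (hgy' : eval y' g = 0) :
    line (Sum.elim z 0) (Sum.elim 0 y) - line (Sum.elim z 0) (Sum.elim 0 y') ∈ Tor (jn f g) := by
  have hd0 : d ≠ 0 := hd.ne'
  obtain ⟨w, hw, hli, hfw⟩ := high hE hd hκ hf hz hfz
  by_cases hw0 : eval w f = 0
  · -- all in one plane
    have key : ∀ u : μ → k, u ≠ 0 → eval u g = 0 →
        line (Sum.elim z 0) (Sum.elim 0 u) - line (Sum.elim z 0) (Sum.elim w 0) ∈
          Tor (jn f g) := by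
      intro u hu hgu
      obtain ⟨i, hi⟩ := ne_zero_ex hu
      refine pl_use hPL (li3 fun α β γ h => ?_) fun α β γ => ?_
      · have h1 := h (Sum.inr i)
        simp only [Sum.elim_inr, Pi.zero_apply, mul_zero, zero_add, add_zero] at h1
        have hβ : β = 0 := (mul_eq_zero.mp h1).resolve_right hi
        have h2 := hli α γ (fun j => by
          have := h (Sum.inl j)
          simp only [Sum.elim_inl, Pi.zero_apply, mul_zero, add_zero] at this
          exact this)
        exact ⟨h2.1, hβ, h2.2⟩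
      · rw [eval_jn]
        simp only [Sum.elim_inl, Sum.elim_inr, Pi.zero_apply, mul_zero, zero_add, add_zero]
        rw [hfw, hw0, eval_smul_hom hg, hgu]
        ring
    have h1 := sub_mem (key y hy hgy) (key y' hy' hgy')
    rwa [sub_sub_sub_cancel_right] at h1
  · have hγ : -eval w f ≠ 0 := neg_ne_zero.mpr hw0
    have hone : ∀ u : μ → k, u ≠ 0 → eval u g = 0 →
        LinearIndependent k ![(Sum.elim u 0 : μ ⊕ Unit → k), Sum.elim 0 1] ∧
        ∀ a b : k, (∃ j, a * (Sum.elim u 0 : μ ⊕ Unit → k) j +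
            b * (Sum.elim 0 1 : μ ⊕ Unit → k) j ≠ 0) →
          eval (fun j => a * (Sum.elim u 0 : μ ⊕ Unit → k) (Sum.inl j) +
            b * (Sum.elim 0 1 : μ ⊕ Unit → k) (Sum.inl j)) g =
            -eval w f * (a * (Sum.elim u 0 : μ ⊕ Unit → k) (Sum.inr ()) +
              b * (Sum.elim 0 1 : μ ⊕ Unit → k) (Sum.inr ())) ^ d →
          line (Sum.elim (fun j => (a * (Sum.elim u 0 : μ ⊕ Unit → k) (Sum.inr ()) +
              b * (Sum.elim 0 1 : μ ⊕ Unit → k) (Sum.inr ())) * w j)
            (fun j => a * (Sum.elim u 0 : μ ⊕ Unit → k) (Sum.inl j) +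
              b * (Sum.elim 0 1 : μ ⊕ Unit → k) (Sum.inl j))) (Sum.elim z 0) -
            line (Sum.elim z 0) (Sum.elim 0 u) ∈ Tor (jn f g) := by
      intro u hu hgu
      refine ⟨li2 fun α β h => ?_, fun a b hne he => ?_⟩
      · have h1 := h (Sum.inr ())
        simp only [Sum.elim_inr, Pi.one_apply, Pi.zero_apply, mul_one, mul_zero, zero_add] at h1
        obtain ⟨i, hi⟩ := ne_zero_ex hu
        have h2 := h (Sum.inl i)
        simp only [Sum.elim_inl, h1, zero_mul, add_zero] at h2
        exact ⟨(mul_eq_zero.mp h2).resolve_right hi, h1⟩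
      · simp only [Sum.elim_inl, Sum.elim_inr, Pi.one_apply, Pi.zero_apply, mul_one, mul_zero,
          add_zero, zero_add] at he ⊢
        rw [eval_smul_hom hg, hgu, mul_zero, eq_comm, mul_eq_zero] at he
        have hb : b = 0 := pow_eq_zero_iff hd0 |>.mp (he.resolve_left hγ)
        have ha : a ≠ 0 := by
          intro ha
          obtain ⟨j, hj⟩ := hne
          rw [ha, hb] at hj
          simp at hj
        have h1 : line (Sum.elim (fun j => b * w j) (fun j => a * u j))
            (Sum.elim z (0 : μ → k)) =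
            line (Sum.elim z (0 : μ → k)) (Sum.elim (0 : κ → k) u) := by
          rw [line_comm (Sum.elim z (0 : μ → k))]
          refine line_smul ha fun i => ?_
          cases i <;> simp [hb]
        rw [h1, sub_self]
        exact zero_mem _
    obtain ⟨l0, H0⟩ := hone y hy hgy
    obtain ⟨l1, H1⟩ := hone y' hy' hgy'
    exact pt_use hPT hd hg (z := z) (x := w) (γ := -eval w f) hz hγ
      (fun α β => by rw [hfw]; ring) l0 l1 H0 H1

theorem step2 (hPT : T_PT) (hPL : T_PL) (hE : T_EXP) {k : Type} [Field k] [IsAlgClosed k]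
    [CharZero k] {κ μ : Type} [Fintype κ] [Fintype μ] {d : ℕ} (hd : 0 < d)
    (hκ : d + 1 ≤ Fintype.card κ) {f : MvPolynomial κ k} {g : MvPolynomial μ k}
    (hf : f.IsHomogeneous d) (hg : g.IsHomogeneous d) {z z' : κ → k} {y : μ → k} (hz : z ≠ 0)
    (hz' : z' ≠ 0) (hy : y ≠ 0) (hfz : eval z f = 0) (hfz' : eval z' f = 0)
    (hgy : eval y g = 0) :
    line (Sum.elim z 0) (Sum.elim 0 y) - line (Sum.elim z' 0) (Sum.elim 0 y) ∈ Tor (jn f g) := by
  classical
  have hd0 : d ≠ 0 := hd.ne'
  obtain ⟨w, hw, hli, hfw⟩ := high hE hd hκ hf hz hfz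
  obtain ⟨w', hw', hli', hfw'⟩ := high hE hd hκ hf hz' hfz'
  set φ : κ → κ ⊕ μ → k := fun j => Sum.elim (Pi.single j 1) 0 with hφ
  have hlin : ∀ (K : Type) [Field K] [Algebra k K] (e : κ → K), lin φ e =
      Sum.elim e (fun _ => 0) := by
    intro K _ _ e
    funext i
    unfold lin
    cases i with
    | inr i => simp [hφ]
    | inl i =>
      simp only [hφ, Sum.elim_inl]
      rw [Finset.sum_eq_single i]
      · simp
      · intro j _ hj
        rw [Pi.single_eq_of_ne hj.symm]
        simp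
      · simp
  have key : ∀ z w : κ → k, z ≠ 0 → w ≠ 0 →
      (∀ α β : k, (∀ i, α * z i + β * w i = 0) → α = 0 ∧ β = 0) →
      (∀ α β : k, eval (fun i => α * z i + β * w i) f = β ^ d * eval w f) →
      ∀ e : κ → k, e ≠ 0 → e ∈ Submodule.span k {z, w} → eval e f = 0 →
        line (lin φ e) (Sum.elim 0 y) - line (Sum.elim z 0) (Sum.elim 0 y) ∈ Tor (jn f g) := by
    intro z w hz hw hli hfw e he hm hfe
    obtain ⟨a, b, rfl⟩ := Submodule.mem_span_pair.mp hm
    have e1 : (a • z + b • w) = fun i => a * z i + b * w i := funext fun i => by simp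
    rw [e1, hfw] at hfe
    rw [hlin, e1]
    by_cases hb : b = 0
    · have ha : a ≠ 0 := by
        intro ha
        refine he ?_
        rw [ha, hb]
        simp
      have h1 : line (Sum.elim (fun i => a * z i + b * w i) (fun _ => 0))
          (Sum.elim (0 : κ → k) y) = line (Sum.elim z 0) (Sum.elim (0 : κ → k) y) := by
        refine line_smul ha fun i => ?_
        cases i <;> simp [hb]
      rw [h1, sub_self]
      exact zero_mem _
    · have hw0 : eval w f = 0 := (mul_eq_zero.mp hfe).resolve_left (pow_ne_zero _ hb)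
      rw [line_comm, line_comm (Sum.elim z 0)]
      refine pl_use hPL (li3 fun α β γ h => ?_) fun α β γ => ?_
      · obtain ⟨i, hi⟩ := ne_zero_ex hy
        have h1 := h (Sum.inr i)
        simp only [Sum.elim_inr, Pi.zero_apply, mul_zero, add_zero] at h1
        have hα : α = 0 := (mul_eq_zero.mp h1).resolve_right hi
        have h2 := hli (β * a + γ) (β * b) (fun j => by
          have := h (Sum.inl j)
          simp only [Sum.elim_inl, Pi.zero_apply, mul_zero, zero_add] at this
          linear_combination this)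
        have hβ : β = 0 := (mul_eq_zero.mp h2.2).resolve_right hb
        have hγ : γ = 0 := by
          have := h2.1
          rw [hβ, zero_mul, zero_add] at this
          exact this
        exact ⟨hα, hβ, hγ⟩
      · rw [eval_jn]
        simp only [Sum.elim_inl, Sum.elim_inr, Pi.zero_apply, mul_zero, add_zero, zero_add]
        have e2 : (fun i => β * (a * z i + b * w i) + γ * z i) =
            fun i => (β * a + γ) * z i + (β * b) * w i := by funext i; ring
        rw [e2, hfw, hw0, eval_smul_hom hg, hgy]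
        ring
  refine hPT k (κ ⊕ μ) κ (jn f g) f d hd hf φ (Sum.elim 0 y) ?_ ?_ z w z' w' (li2 hli)
    (li2 hli') _ _ (key z w hz hw hli hfw) (key z' w' hz' hw' hli' hfw')
  · intro K _ _ e s he
    rw [hlin, aeval_jn]
    simp only [Sum.elim_inl, Sum.elim_inr, Pi.zero_apply, map_zero, mul_zero, add_zero, zero_add]
    rw [hom_smul hg]
    have h1 : aeval (fun i => algebraMap k K (y i)) g = algebraMap k K (eval y g) := by
      rw [eval_eq_aeval, ← Algebra.ofId_apply, ← AlgHom.comp_apply]
      congr 1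
      ext i
      simp [Algebra.ofId_apply]
    rw [h1, hgy, map_zero, mul_zero, add_zero]
    exact he
  · intro K _ _ e he0 _
    rw [hlin]
    refine li2 fun α β h => ?_
    obtain ⟨i, hi⟩ := ne_zero_ex he0
    obtain ⟨j, hj⟩ := ne_zero_ex hy
    have h1 := h (Sum.inl i)
    simp only [Sum.elim_inl, Pi.zero_apply, map_zero, mul_zero, add_zero] at h1
    have h2 := h (Sum.inr j)
    simp only [Sum.elim_inr, mul_zero, zero_add] at h2
    refine ⟨(mul_eq_zero.mp h1).resolve_right hi, (mul_eq_zero.mp h2).resolve_right ?_⟩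
    rw [FaithfulSMul.algebraMap_eq_zero_iff]
    exact hj

theorem t_TIi : T_TIi := by
  intro hPT hPL hE k _ _ _ κ μ _ _ d hd2 hκ hμ f g hf hg z z' y y' hz hz' hy hy' hfz hfz' hgy hgy'
  have hd : 0 < d := by omega
  have h1 := step1 hPT hPL hE hd hκ hf hg hz hy hy' hfz hgy hgy'
  have h2 := step2 hPT hPL hE hd hκ hf hg hz hz' hy' hfz hfz' hgy'
  have h3 := add_mem h1 h2
  rwa [sub_add_sub_cancel] at h3

end Pool.Agent.T2h38.H15
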